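import Mathlib

/-!
Power form of the density increment, lower half: the examples.
-/

set_option autoImplicit false
set_option linter.unusedSectionVars false

noncomputable section

namespace Pool.Agent.Y873.GP

open Finset

variable {B w : ℕ}

/-- the block `b` of a point. -/
def blk (x : Fin (B * w) → Fin 2) (b : Fin B) : Fin w → Fin 2 :=
  fun i => x (finProdFinEquiv (b, i))

/-- sets given by conditions on the blocks. -/
def bset (P : Fin B → Finset (Fin w → Fin 2)) : Finset (Fin (B * w) → Fin 2) :=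
  Finset.univ.filter (fun x => ∀ b, blk x b ∈ P b)

lemma mem_bset {P : Fin B → Finset (Fin w → Fin 2)} {x : Fin (B * w) → Fin 2} :
    x ∈ bset P ↔ ∀ b, blk x b ∈ P b := by
  unfold bset; rw [Finset.mem_filter]; exact ⟨fun h => h.2, fun h => ⟨Finset.mem_univ _, h⟩⟩

/-- points and their blocks. -/
def Phi (B w : ℕ) : (Fin (B * w) → Fin 2) ≃ (Fin B → Fin w → Fin 2) where
  toFun := blk
  invFun y := fun i => y (finProdFinEquiv.symm i).1 (finProdFinEquiv.symm i).2
  left_inv x := by
    funext i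
    show x (finProdFinEquiv ((finProdFinEquiv.symm i).1, (finProdFinEquiv.symm i).2)) = x i
    rw [Prod.mk.eta, Equiv.apply_symm_apply]
  right_inv y := by
    funext b i
    simp [blk]

lemma card_bset (P : Fin B → Finset (Fin w → Fin 2)) :
    (bset P).card = ∏ b, (P b).card := by
  rw [← Fintype.card_piFinset]
  refine Finset.card_equiv (Phi B w) (fun x => ?_)
  rw [mem_bset, Fintype.mem_piFinset]
  rfl

lemma piFinset_eq (S : Fin (B * w) → Finset (Fin 2)) :
    Fintype.piFinset S
      = bset (fun b : Fin B => Fintype.piFinset (fun i : Fin w => S (finProdFinEquiv (b, i)))) := by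
  ext x
  rw [mem_bset, Fintype.mem_piFinset]
  constructor
  · intro h b
    rw [Fintype.mem_piFinset]
    intro i
    exact h _
  · intro h i
    have h1 := Fintype.mem_piFinset.1 (h (finProdFinEquiv.symm i).1) (finProdFinEquiv.symm i).2
    have h2 : finProdFinEquiv ((finProdFinEquiv.symm i).1, (finProdFinEquiv.symm i).2) = i := by
      rw [Prod.mk.eta, Equiv.apply_symm_apply]
    unfold blk at h1
    rw [h2] at h1
    exact h1

lemma inter_bset (P Q : Fin B → Finset (Fin w → Fin 2)) :
    bset P ∩ bset Q = bset (fun b => P b ∩ Q b) := by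
  ext x
  rw [Finset.mem_inter, mem_bset, mem_bset, mem_bset]
  constructor
  · rintro ⟨h1, h2⟩ b
    exact Finset.mem_inter.2 ⟨h1 b, h2 b⟩
  · intro h
    exact ⟨fun b => (Finset.mem_inter.1 (h b)).1, fun b => (Finset.mem_inter.1 (h b)).2⟩

/-- the all ones point. -/
def on (w : ℕ) : Fin w → Fin 2 := fun _ => 1

/-- the condition on the blocks: the first `M` blocks are all ones, the others are not. -/
def Pb (B w M : ℕ) (b : Fin B) : Finset (Fin w → Fin 2) :=
  if (b : ℕ) < M then {on w} else Finset.univ.erase (on w)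

lemma card_Pb (B w M : ℕ) (b : Fin B) :
    (Pb B w M b).card = if (b : ℕ) < M then 1 else 2 ^ w - 1 := by
  unfold Pb
  split_ifs
  · simp
  · rw [Finset.card_erase_of_mem (Finset.mem_univ _), Finset.card_univ, Fintype.card_fun,
      Fintype.card_fin, Fintype.card_fin]

lemma card_lt_B {B M : ℕ} (h : M ≤ B) :
    (Finset.univ.filter (fun b : Fin B => (b : ℕ) < M)).card = M := by
  have h1 : (Finset.univ.filter (fun b : Fin B => (b : ℕ) < M)).card
      = (Finset.range M).card := by
    refine Finset.card_bij (fun b _ => (b : ℕ)) ?_ ?_ ?_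
    · intro b hb
      exact Finset.mem_range.2 (Finset.mem_filter.1 hb).2
    · intro b _ b' _ hbb
      exact Fin.ext hbb
    · intro j hj
      have hj' := Finset.mem_range.1 hj
      exact ⟨⟨j, by omega⟩, Finset.mem_filter.2 ⟨Finset.mem_univ _, hj'⟩, rfl⟩
  rw [h1, Finset.card_range]

lemma card_ge_B {B M : ℕ} (h : M ≤ B) :
    (Finset.univ.filter (fun b : Fin B => ¬ (b : ℕ) < M)).card = B - M := by
  have h1 := Finset.card_filter_add_card_filter_not (s := (Finset.univ : Finset (Fin B)))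
    (fun b : Fin B => (b : ℕ) < M)
  rw [card_lt_B h, Finset.card_univ, Fintype.card_fin] at h1
  omega

/-- the example. -/
def EX (B w M : ℕ) : Finset (Fin (B * w) → Fin 2) := bset (Pb B w M)

lemma card_EX {B w M : ℕ} (h : M ≤ B) : (EX B w M).card = (2 ^ w - 1) ^ (B - M) := by
  unfold EX
  rw [card_bset, Finset.prod_congr rfl (fun b _ => card_Pb B w M b), Finset.prod_ite,
    Finset.prod_const_one, one_mul, Finset.prod_const, card_ge_B h]

/-- change one coordinate. -/
def fx {n : ℕ} (i : Fin n) (x : Fin n → Fin 2) : Fin n → Fin 2 :=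
  Function.update x i (x i + 1)

lemma fin2_ne {a b : Fin 2} (h : a ≠ b) : b = a + 1 := by
  revert a b; decide

lemma exists_fx {n : ℕ} {x y : Fin n → Fin 2}
    (h : ∑ i, |((x i : ℕ) : ℤ) - ((y i : ℕ) : ℤ)| = 1) : ∃ i, y = fx i x := by
  have h1 : ∃ i, x i ≠ y i := by
    by_contra hc
    push Not at hc
    have : ∑ i, |((x i : ℕ) : ℤ) - ((y i : ℕ) : ℤ)| = 0 := by
      refine Finset.sum_eq_zero (fun i _ => ?_)
      rw [hc i]; simp
    omega
  obtain ⟨i, hi⟩ := h1
  refine ⟨i, ?_⟩
  have hpos : 1 ≤ |((x i : ℕ) : ℤ) - ((y i : ℕ) : ℤ)| := by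
    apply Int.one_le_abs
    intro h0
    apply hi
    apply Fin.ext
    omega
  have hsplit := Finset.add_sum_erase (Finset.univ : Finset (Fin n))
    (fun j => |((x j : ℕ) : ℤ) - ((y j : ℕ) : ℤ)|) (Finset.mem_univ i)
  have hnn : ∀ j ∈ (Finset.univ : Finset (Fin n)).erase i,
      0 ≤ |((x j : ℕ) : ℤ) - ((y j : ℕ) : ℤ)| := fun j _ => abs_nonneg _
  have hrest : ∑ j ∈ (Finset.univ : Finset (Fin n)).erase i,
      |((x j : ℕ) : ℤ) - ((y j : ℕ) : ℤ)| = 0 := by
    have := Finset.sum_nonneg hnn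
    linarith
  have hz := (Finset.sum_eq_zero_iff_of_nonneg hnn).1 hrest
  funext j
  by_cases hj : j = i
  · subst hj
    unfold fx
    rw [Function.update_self]
    exact fin2_ne hi
  · unfold fx
    rw [Function.update_of_ne hj]
    have h2 := hz j (Finset.mem_erase.2 ⟨hj, Finset.mem_univ _⟩)
    rw [abs_eq_zero] at h2
    apply Fin.ext
    omega

lemma edge_le {n : ℕ} (A : Finset (Fin n → Fin 2)) :
    ((Finset.univ : Finset ((Fin n → Fin 2) × (Fin n → Fin 2))).filter
      (fun p => p.1 ∈ A ∧ p.2 ∉ A ∧ ∑ i, |((p.1 i : ℕ) : ℤ) - ((p.2 i : ℕ) : ℤ)| = 1)).card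
      ≤ ∑ i, (A.filter (fun x => fx i x ∉ A)).card := by
  rw [← Finset.card_sigma]
  refine (Finset.card_le_card (t := (Finset.univ.sigma
    (fun i => A.filter (fun x => fx i x ∉ A))).image (fun q => (q.2, fx q.1 q.2))) ?_).trans
    Finset.card_image_le
  intro p hp
  obtain ⟨-, h1, h2, h3⟩ := Finset.mem_filter.1 hp
  obtain ⟨i, hi⟩ := exists_fx h3
  refine Finset.mem_image.2 ⟨⟨i, p.1⟩, Finset.mem_sigma.2 ⟨Finset.mem_univ _,
    Finset.mem_filter.2 ⟨h1, by rw [← hi]; exact h2⟩⟩, ?_⟩
  exact Prod.ext rfl hi.symm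

lemma blk_fx_ne (b b' : Fin B) (i : Fin w) (h : b' ≠ b) (x : Fin (B * w) → Fin 2) :
    blk (fx (finProdFinEquiv (b, i)) x) b' = blk x b' := by
  funext j
  unfold blk fx
  rw [Function.update_of_ne]
  intro he
  apply h
  exact (Prod.ext_iff.1 (finProdFinEquiv.injective he)).1

lemma blk_fx_self (b : Fin B) (i : Fin w) (x : Fin (B * w) → Fin 2) :
    blk (fx (finProdFinEquiv (b, i)) x) b = fx i (blk x b) := by
  funext j
  unfold blk fx
  by_cases hj : j = i
  · subst hj
    rw [Function.update_self, Function.update_self]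
  · rw [Function.update_of_ne, Function.update_of_ne hj]
    intro he
    exact hj (Prod.ext_iff.1 (finProdFinEquiv.injective he)).2

lemma fx_fx {n : ℕ} (i : Fin n) (x : Fin n → Fin 2) : fx i (fx i x) = x := by
  funext j
  unfold fx
  by_cases hj : j = i
  · subst hj
    simp only [Function.update_self]
    generalize x j = a
    revert a; decide
  · rw [Function.update_of_ne hj, Function.update_of_ne hj]

/-- one direction in a block of the second kind. -/
lemma dir_count {M : ℕ} (b : Fin B) (hb : ¬ (b : ℕ) < M) (i : Fin w) :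
    (2 ^ w - 1) * ((EX B w M).filter
      (fun x => fx (finProdFinEquiv (b, i)) x ∉ EX B w M)).card ≤ (EX B w M).card := by
  have hsub : ((EX B w M).filter (fun x => fx (finProdFinEquiv (b, i)) x ∉ EX B w M))
      ⊆ bset (fun b' => if b' = b then {fx i (on w)} else Pb B w M b') := by
    intro x hx
    obtain ⟨h1, h2⟩ := Finset.mem_filter.1 hx
    unfold EX at h1 h2
    rw [mem_bset] at h1 h2 ⊢
    intro b'
    by_cases hbb : b' = b
    · subst hbb
      rw [if_pos rfl, Finset.mem_singleton]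
      have h3 : fx i (blk x b') = on w := by
        by_contra h4
        apply h2
        intro b''
        by_cases hb'' : b'' = b'
        · subst hb''
          rw [blk_fx_self]
          unfold Pb
          rw [if_neg hb]
          exact Finset.mem_erase.2 ⟨h4, Finset.mem_univ _⟩
        · rw [blk_fx_ne _ _ _ hb'']
          exact h1 b''
      rw [← h3, fx_fx]
    · rw [if_neg hbb]
      exact h1 b'
  have hcard := Finset.card_le_card hsub
  rw [card_bset] at hcard
  have e1 : ∏ b', (if b' = b then ({fx i (on w)} : Finset (Fin w → Fin 2)) else Pb B w M b').card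
      = ∏ b' ∈ Finset.univ.erase b, (Pb B w M b').card := by
    rw [← Finset.mul_prod_erase Finset.univ _ (Finset.mem_univ b), if_pos rfl,
      Finset.card_singleton, one_mul]
    refine Finset.prod_congr rfl (fun b' hb' => ?_)
    rw [if_neg (Finset.mem_erase.1 hb').1]
  rw [e1] at hcard
  have e2 : (EX B w M).card = (2 ^ w - 1) * ∏ b' ∈ Finset.univ.erase b, (Pb B w M b').card := by
    unfold EX
    rw [card_bset, ← Finset.mul_prod_erase Finset.univ _ (Finset.mem_univ b), card_Pb,
      if_neg hb]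
  rw [e2]
  exact Nat.mul_le_mul_left _ hcard

/-- the boundary of the example. -/
lemma edge_EX {M : ℕ} (hw : 1 ≤ w) (hB : B = M * 2 ^ w) :
    (((Finset.univ : Finset ((Fin (B * w) → Fin 2) × (Fin (B * w) → Fin 2))).filter
      (fun p => p.1 ∈ EX B w M ∧ p.2 ∉ EX B w M ∧
        ∑ i, |((p.1 i : ℕ) : ℤ) - ((p.2 i : ℕ) : ℤ)| = 1)).card : ℝ)
      ≤ 2 * M * w * (EX B w M).card := by
  have hMB : M ≤ B := by
    rw [hB]; exact Nat.le_mul_of_pos_right _ (by positivity)
  have hQ : 1 ≤ 2 ^ w - 1 := by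
    have : 2 ^ 1 ≤ 2 ^ w := Nat.pow_le_pow_right (by norm_num) hw
    omega
  have hQR : (0:ℝ) < ((2 ^ w - 1 : ℕ) : ℝ) := by exact_mod_cast hQ
  have h1 := edge_le (EX B w M)
  have h2 : ∑ i, ((EX B w M).filter (fun x => fx i x ∉ EX B w M)).card
      = ∑ b : Fin B, ∑ i : Fin w, ((EX B w M).filter
        (fun x => fx (finProdFinEquiv (b, i)) x ∉ EX B w M)).card := by
    rw [← Fintype.sum_prod_type']
    exact (Equiv.sum_comp finProdFinEquiv
      (fun i => ((EX B w M).filter (fun x => fx i x ∉ EX B w M)).card)).symm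
  rw [h2] at h1
  have h3 : (((∑ b : Fin B, ∑ i : Fin w, ((EX B w M).filter
        (fun x => fx (finProdFinEquiv (b, i)) x ∉ EX B w M)).card : ℕ) : ℕ) : ℝ)
      ≤ ∑ b : Fin B, (if (b : ℕ) < M then (w : ℝ) * (EX B w M).card
        else (w : ℝ) * ((EX B w M).card / ((2 ^ w - 1 : ℕ) : ℝ))) := by
    push_cast
    refine Finset.sum_le_sum (fun b _ => ?_)
    split_ifs with hb
    · have : ∑ i : Fin w, (((EX B w M).filter
        (fun x => fx (finProdFinEquiv (b, i)) x ∉ EX B w M)).card : ℝ)
          ≤ ∑ _i : Fin w, ((EX B w M).card : ℝ) := by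
        refine Finset.sum_le_sum (fun i _ => ?_)
        exact_mod_cast Finset.card_filter_le _ _
      refine this.trans (le_of_eq ?_)
      rw [Finset.sum_const, Finset.card_univ, Fintype.card_fin, nsmul_eq_mul]
    · have : ∑ i : Fin w, (((EX B w M).filter
        (fun x => fx (finProdFinEquiv (b, i)) x ∉ EX B w M)).card : ℝ)
          ≤ ∑ _i : Fin w, ((EX B w M).card : ℝ) / ((2 ^ w - 1 : ℕ) : ℝ) := by
        refine Finset.sum_le_sum (fun i _ => ?_)
        rw [le_div_iff₀ hQR, mul_comm]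
        exact_mod_cast dir_count b hb i
      refine this.trans (le_of_eq ?_)
      rw [Finset.sum_const, Finset.card_univ, Fintype.card_fin, nsmul_eq_mul]
  rw [Finset.sum_ite, Finset.sum_const, Finset.sum_const, card_lt_B hMB, card_ge_B hMB,
    nsmul_eq_mul, nsmul_eq_mul] at h3
  have h4 : ((B - M : ℕ) : ℝ) = M * ((2 ^ w - 1 : ℕ) : ℝ) := by
    have : B - M = M * (2 ^ w - 1) := by rw [hB, Nat.mul_sub, mul_one]
    rw [this]; push_cast; ring
  rw [h4] at h3
  have h5 : (M : ℝ) * ((2 ^ w - 1 : ℕ) : ℝ)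
      * ((w : ℝ) * ((EX B w M).card / ((2 ^ w - 1 : ℕ) : ℝ))) = M * (w * (EX B w M).card) := by
    field_simp
  rw [h5] at h3
  have h6 : (((Finset.univ : Finset ((Fin (B * w) → Fin 2) × (Fin (B * w) → Fin 2))).filter
      (fun p => p.1 ∈ EX B w M ∧ p.2 ∉ EX B w M ∧
        ∑ i, |((p.1 i : ℕ) : ℤ) - ((p.2 i : ℕ) : ℤ)| = 1)).card : ℝ)
      ≤ ((∑ b : Fin B, ∑ i : Fin w, ((EX B w M).filter
        (fun x => fx (finProdFinEquiv (b, i)) x ∉ EX B w M)).card : ℕ) : ℝ) := by
    exact_mod_cast h1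
  refine h6.trans (h3.trans (le_of_eq ?_))
  ring

/-- number of fixed coordinates. -/
def tch {n : ℕ} (S : Fin n → Finset (Fin 2)) : Finset (Fin n) :=
  Finset.univ.filter (fun i => S i ≠ Finset.univ)

lemma card_C_le {n : ℕ} (S : Fin n → Finset (Fin 2)) :
    (Fintype.piFinset S).card * 2 ^ (tch S).card ≤ 2 ^ n := by
  have h1 : (2 : ℕ) ^ (tch S).card = ∏ i, (if S i ≠ Finset.univ then 2 else 1) := by
    rw [Finset.prod_ite, Finset.prod_const_one, mul_one, Finset.prod_const]
    rfl
  have h2 : (2 : ℕ) ^ n = ∏ _i : Fin n, 2 := by simp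
  rw [Fintype.card_piFinset, h1, h2, ← Finset.prod_mul_distrib]
  refine Finset.prod_le_prod' (fun i _ => ?_)
  by_cases h : S i = Finset.univ
  · rw [if_neg (by simpa using h), mul_one]
    have := Finset.card_le_univ (S i)
    rwa [Fintype.card_fin] at this
  · rw [if_pos h]
    have h3 : (S i).card < 2 := by
      have := (Finset.card_lt_iff_ne_univ (S i)).2 h
      rwa [Fintype.card_fin] at this
    omega

/-- the density of the example in a product set. -/
lemma dens_le {M : ℕ} (hMB : M ≤ B) (S : Fin (B * w) → Finset (Fin 2))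
    (s : ℕ) (hs : (tch S).card ≤ s) :
    ((EX B w M ∩ Fintype.piFinset S).card : ℝ)
      ≤ (1 - (1 / 2 : ℝ) ^ w) ^ (B - M - s) * (Fintype.piFinset S).card := by
  set p : ℝ := 1 - (1 / 2 : ℝ) ^ w with hp
  have hp0 : 0 ≤ p := by
    have : (1 / 2 : ℝ) ^ w ≤ 1 := pow_le_one₀ (by norm_num) (by norm_num)
    rw [hp]; linarith
  have hp1 : p ≤ 1 := by
    have : (0:ℝ) < (1 / 2 : ℝ) ^ w := by positivity
    rw [hp]; linarith
  set Cb : Fin B → Finset (Fin w → Fin 2) :=
    fun b => Fintype.piFinset (fun i : Fin w => S (finProdFinEquiv (b, i))) with hCb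
  set G : Finset (Fin B) := Finset.univ.filter
    (fun b => ¬ (b : ℕ) < M ∧ ∀ i : Fin w, S (finProdFinEquiv (b, i)) = Finset.univ) with hG
  have hGcard : B - M - s ≤ G.card := by
    have h1 : Finset.univ.filter (fun b : Fin B => ¬ (b : ℕ) < M)
        ⊆ G ∪ (tch S).image (fun i => (finProdFinEquiv.symm i).1) := by
      intro b hb
      by_cases h : ∀ i : Fin w, S (finProdFinEquiv (b, i)) = Finset.univ
      · exact Finset.mem_union_left _ (Finset.mem_filter.2
          ⟨Finset.mem_univ _, (Finset.mem_filter.1 hb).2, h⟩)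
      · push Not at h
        obtain ⟨i, hi⟩ := h
        refine Finset.mem_union_right _ (Finset.mem_image.2 ⟨finProdFinEquiv (b, i), ?_, ?_⟩)
        · exact Finset.mem_filter.2 ⟨Finset.mem_univ _, hi⟩
        · rw [Equiv.symm_apply_apply]
    have h2 := (Finset.card_le_card h1).trans (Finset.card_union_le _ _)
    rw [card_ge_B hMB] at h2
    have h3 : ((tch S).image (fun i => (finProdFinEquiv.symm i).1)).card ≤ (tch S).card :=
      Finset.card_image_le
    omega
  have hmain : ((EX B w M ∩ Fintype.piFinset S).card : ℝ) ≤ p ^ G.card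
      * (Fintype.piFinset S).card := by
    rw [piFinset_eq S]
    unfold EX
    rw [inter_bset, card_bset, card_bset]
    push_cast
    have e : p ^ G.card = ∏ b : Fin B, (if b ∈ G then p else 1) := by
      rw [Finset.prod_ite_mem, Finset.univ_inter, Finset.prod_const]
    rw [e, ← Finset.prod_mul_distrib]
    refine Finset.prod_le_prod (fun b _ => by positivity) (fun b _ => ?_)
    by_cases hb : b ∈ G
    · rw [if_pos hb]
      obtain ⟨-, h1, h2⟩ := Finset.mem_filter.1 hb
      have h3 : Fintype.piFinset (fun i : Fin w => S (finProdFinEquiv (b, i)))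
          = (Finset.univ : Finset (Fin w → Fin 2)) := by
        ext y
        simp [h2]
      rw [h3, Finset.inter_univ, card_Pb, if_neg h1, Finset.card_univ, Fintype.card_fun,
        Fintype.card_fin, Fintype.card_fin]
      have h4 : 1 ≤ 2 ^ w := Nat.one_le_two_pow
      push_cast [Nat.cast_sub h4]
      rw [hp, sub_mul, one_div, inv_pow, inv_mul_cancel₀ (by positivity)]
      linarith
    · rw [if_neg hb, one_mul]
      exact_mod_cast Finset.card_le_card Finset.inter_subset_right
  refine hmain.trans ?_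
  apply mul_le_mul_of_nonneg_right _ (Nat.cast_nonneg _)
  exact pow_le_pow_of_le_one hp0 hp1 hGcard

/-! ### Numbers -/

/-- the logarithm of the inverse density of the example. -/
def el (w M : ℕ) : ℝ :=
  (M * 2 ^ w * w : ℕ) * Real.log 2 - Real.log (((2 ^ w - 1) ^ (M * 2 ^ w - M) : ℕ) : ℝ)

lemma el_bounds {w M : ℕ} (hw : 1 ≤ w) :
    (M : ℝ) * w * Real.log 2 ≤ el w M ∧ el w M ≤ M * (w * Real.log 2 + 1) := by
  have h2w : 2 ≤ 2 ^ w := by
    calc 2 = 2 ^ 1 := by norm_num
      _ ≤ 2 ^ w := Nat.pow_le_pow_right (by norm_num) hw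
  have hsub : M * 2 ^ w - M = M * (2 ^ w - 1) := by rw [Nat.mul_sub, mul_one]
  set Q : ℕ := 2 ^ w - 1 with hQ
  have hQ1 : 1 ≤ Q := by omega
  have hQR : (1:ℝ) ≤ Q := by exact_mod_cast hQ1
  have hW : ((2:ℝ) ^ w) = Q + 1 := by
    have : 2 ^ w = Q + 1 := by omega
    exact_mod_cast this
  have hlogW : (w : ℝ) * Real.log 2 = Real.log (Q + 1) := by
    rw [← hW, Real.log_pow]
  have hM0 : (0:ℝ) ≤ M := Nat.cast_nonneg M
  have hel : el w M = M * (Q + 1) * Real.log (Q + 1) - M * Q * Real.log Q := by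
    unfold el
    rw [hsub]
    push_cast
    rw [Real.log_pow, hW]
    push_cast
    have : (M : ℝ) * (Q + 1) * w * Real.log 2 = M * (Q + 1) * (w * Real.log 2) := by ring
    rw [this, hlogW]
  rw [hel]
  have h1 : Real.log Q ≤ Real.log (Q + 1) := Real.log_le_log (by linarith) (by linarith)
  have h2 : Real.log (Q + 1) - Real.log Q ≤ 1 / Q := by
    rw [← Real.log_div (by positivity) (by positivity)]
    have := Real.log_le_sub_one_of_pos (show (0:ℝ) < (Q + 1) / Q by positivity)
    have e : ((Q:ℝ) + 1) / Q - 1 = 1 / Q := by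
      field_simp; ring
    linarith
  constructor
  · have e : (M : ℝ) * w * Real.log 2 = M * Real.log (Q + 1) := by rw [← hlogW]; ring
    rw [e]
    have : 0 ≤ M * Q * (Real.log (Q + 1) - Real.log Q) := by
      apply mul_nonneg (by positivity); linarith
    linarith
  · rw [hlogW]
    have : M * Q * (Real.log (Q + 1) - Real.log Q) ≤ M * Q * (1 / Q) := by gcongr
    have e : (M:ℝ) * Q * (1 / Q) = M := by field_simp
    linarith

lemma r_exp_ge {l r : ℝ} (hr : 0 < r) : 2.7182 * l ≤ r * Real.exp (l / r) := by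
  rcases le_or_gt l 0 with hl | hl
  · have : 0 < r * Real.exp (l / r) := by positivity
    linarith
  · have h1 := Real.add_one_le_exp (l / r - 1)
    have h2 : l / r ≤ Real.exp (l / r) / Real.exp 1 := by
      rw [← Real.exp_sub]; linarith
    rw [le_div_iff₀ (Real.exp_pos _)] at h2
    have h3 := Real.exp_one_gt_d9
    have h4 : r * (l / r * Real.exp 1) ≤ r * Real.exp (l / r) := by gcongr
    have h5 : r * (l / r * Real.exp 1) = l * Real.exp 1 := by field_simp
    rw [h5] at h4
    nlinarith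

lemma sq_le_two_pow {w : ℕ} (hw : 14 ≤ w) : (5 * w + 1) ^ 2 ≤ 2 ^ w := by
  induction w, hw using Nat.le_induction with
  | base => norm_num
  | succ w hw ih =>
    rw [pow_succ 2 w]
    nlinarith

lemma five_exp_le {w : ℕ} (hw : 14 ≤ w) :
    5 * (w : ℝ) * Real.exp ((w : ℝ) / 4) ≤ 2 ^ w - 1 := by
  have hlog2 : 0.69 < Real.log 2 := by have := Real.log_two_gt_d9; linarith
  set t : ℝ := Real.exp ((w : ℝ) * Real.log 2 / 2) with ht
  have ht2 : t ^ 2 = 2 ^ w := by
    rw [ht, ← Real.exp_nat_mul]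
    push_cast
    have : (2 : ℝ) * ((w : ℝ) * Real.log 2 / 2) = w * Real.log 2 := by ring
    rw [this, Real.exp_nat_mul, Real.exp_log (by norm_num)]
  have ht0 : 0 < t := Real.exp_pos _
  have hwR : (14:ℝ) ≤ w := by exact_mod_cast hw
  have h1 : 5 * (w : ℝ) + 1 ≤ t := by
    have h2 : (5 * (w : ℝ) + 1) ^ 2 ≤ t ^ 2 := by
      rw [ht2]; exact_mod_cast sq_le_two_pow hw
    exact le_of_sq_le_sq h2 ht0.le
  have h3 : Real.exp ((w : ℝ) / 4) ≤ t := by
    rw [ht]; apply Real.exp_le_exp.2; nlinarith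
  rw [← ht2]
  have h4 : 5 * (w : ℝ) * Real.exp ((w : ℝ) / 4) ≤ (t - 1) * t := by
    apply mul_le_mul (by linarith) h3 (Real.exp_pos _).le (by linarith)
  nlinarith

end Pool.Agent.Y873.GP
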