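import Pool.Agent.TH385.KKGrid.Main

/-!
Power form of the density increment, upper half: density `α^θ` for every `θ`.
-/

set_option autoImplicit false
set_option linter.unusedSectionVars false

noncomputable section

namespace Pool.Agent.Y873.GP

open Finset Pool.Agent.TH385.KK Pool.Agent.TH385.KKGrid

variable {ι : Type*} [Fintype ι] [DecidableEq ι]

/-- The main iteration, power form. -/
theorem exists_pow {L0 θ : ℝ} (hL0 : 1 ≤ L0) (hθ0 : 0 < θ) (hθ1 : θ ≤ 1)
    {A : Finset (ι → Bool)} (hA : A.Nonempty)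
    (hℓ00 : 0 < Fintype.card ι * Real.log 2 - Real.log A.card)
    (hbd : (bd A : ℝ) ≤ L0 * A.card * (Fintype.card ι * Real.log 2 - Real.log A.card)) :
    ∃ F : Finset ι, ∃ c : ι → Bool,
      (Fintype.card ι - F.card : ℝ) ≤ 2 * L0 / epsL (L0 / θ)
        * (Fintype.card ι * Real.log 2 - Real.log A.card) ∧
      Real.exp (-(θ * (Fintype.card ι * Real.log 2 - Real.log A.card)))
        ≤ ((supp A F c).card : ℝ) / 2 ^ F.card := by
  set n := Fintype.card ι with hn
  set ℓ : ℝ := n * Real.log 2 - Real.log A.card with hℓ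
  have hN : (0 : ℝ) < A.card := by exact_mod_cast Finset.card_pos.2 hA
  have hlog2 : 0 < Real.log 2 := Real.log_pos (by norm_num)
  have hℓ0 : 0 < ℓ := hℓ00
  have hLθ : 1 ≤ L0 / θ := by
    rw [le_div_iff₀ hθ0]; linarith
  set ε := epsL (L0 / θ) with hε
  have hε0 : 0 < ε := epsL_pos hLθ
  set M : ℝ := 16 * (L0 / θ) + 1 / 2 with hM
  have hM2 : 1 / 2 ≤ M := by rw [hM]; linarith
  by_contra hc
  push Not at hc
  set K := ⌊2 * L0 / ε * ℓ⌋₊ with hK
  have hKle : (K : ℝ) ≤ 2 * L0 / ε * ℓ := Nat.floor_le (by positivity)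
  have hKlt : 2 * L0 / ε * ℓ < K + 1 := Nat.lt_floor_add_one _
  -- main claim
  have claim : ∀ k : ℕ, k ≤ K + 1 → ∃ F : Finset ι, F.card + k = n ∧ ∃ c : ι → Bool,
      ∃ ν ∈ PS (supp A F c), Jf M A F ν ≤ L0 * ℓ - k * (ε / 2) := by
    intro k
    induction k with
    | zero =>
      intro _
      refine ⟨Finset.univ, by rw [Finset.card_univ, hn, add_zero], fun _ => true, unif A,
        unif_mem hA _, ?_⟩
      rw [Jf_unif M hA, ← hn, ← hℓ]
      have h1 : (bd A : ℝ) / A.card ≤ L0 * ℓ := by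
        rw [div_le_iff₀ hN]; linarith
      push_cast
      linarith
    | succ k ih =>
      intro hk
      obtain ⟨F, hF, c, ν, hν, hJ⟩ := ih (by omega)
      obtain ⟨μ, hμ, hmin⟩ := exists_min M A (supp A F c) F ⟨ν, hν⟩
      have hJμ : Jf M A F μ ≤ L0 * ℓ - k * (ε / 2) := (hmin ν hν).trans hJ
      have hcodim : (n - F.card : ℝ) = k := by
        have : (n : ℝ) = F.card + k := by rw [← hF]; push_cast; ring
        rw [this]; ring
      have hdens := hc F c (by
        rw [hcodim]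
        have : (k : ℝ) ≤ K := by exact_mod_cast (by omega : k ≤ K)
        linarith)
      -- l
      set l : ℝ := F.card * Real.log 2 - Real.log (supp A F c).card with hl
      have hSne : (supp A F c).Nonempty := by
        by_contra h
        rw [Finset.not_nonempty_iff_eq_empty] at h
        have : ∑ x, μ x = 0 := Finset.sum_eq_zero (fun x _ => hμ.2.2 x (by rw [h]; simp))
        have h2 := hμ.2.1
        rw [this] at h2
        norm_num at h2
      have hSpos : (0 : ℝ) < (supp A F c).card := by exact_mod_cast Finset.card_pos.2 hSne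
      have hlge : θ * ℓ ≤ l := by
        have h1 := Real.log_le_log (by positivity) hdens.le
        rw [Real.log_div hSpos.ne' (by positivity), Real.log_pow, Real.log_exp] at h1
        rw [hl]; linarith
      have hθℓ : 0 < θ * ℓ := by positivity
      have hl0 : 0 < l := by linarith
      have hkε : 0 ≤ (k : ℝ) * (ε / 2) := by positivity
      have hJl : Jf M A F μ ≤ L0 / θ * l := by
        have h3 : L0 * ℓ = L0 / θ * (θ * ℓ) := by field_simp
        have h4 : L0 / θ * (θ * ℓ) ≤ L0 / θ * l :=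
          mul_le_mul_of_nonneg_left hlge (by linarith)
        linarith
      obtain ⟨i, hi, hhard⟩ := key (L1 := L0 / θ) hLθ hl0 (supp_subset A F c) hμ hmin
        (DR_eq hμ) (DR_ge hμ) hJl
      obtain ⟨c', ν', hν', hJ'⟩ := exists_restrict hM2 hi hμ
      refine ⟨F.erase i, ?_, c', ν', hν', ?_⟩
      · rw [Finset.card_erase_of_mem hi]
        have := Finset.card_pos.2 ⟨i, hi⟩
        omega
      · push_cast
        rw [← hε] at hhard
        linarith
  obtain ⟨F, -, c, ν, hν, hJ⟩ := claim (K + 1) le_rfl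
  have h0 := Jf_nonneg hM2 hν
  push_cast at hJ
  have h1 : 2 * L0 * ℓ < (K + 1) * ε := by
    have : 2 * L0 / ε * ℓ = 2 * L0 * ℓ / ε := by ring
    rw [this, div_lt_iff₀ hε0] at hKlt
    exact hKlt
  linarith

variable {n m : ℕ}

/-- exponent for the subcube. -/
def L1p (L θ : ℝ) : ℝ :=
  4 * (1 + 20 * L) / epsL ((1 + 20 * L) / θ) + (1 + Real.log (2 + 6 * L / θ))

theorem core_pow {L θ : ℝ} (hL : 0 < L) (hθ0 : 0 < θ) (hθ1 : θ ≤ 1) {K : ℕ} (hn : 0 < n)
    {A : Finset (Fin n → Fin (K + 1))} (hA : A.Nonempty)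
    (hα : (A.card : ℝ) / ((K : ℝ) + 1) ^ n ≤ 1 / 2)
    (hbd : ∀ r ∈ Finset.Icc 1 n, ((edgeBoundary A).card : ℝ)
      ≤ L * ((A.card : ℝ) ^ (1 - 1 / (r : ℝ)) * r * ((K : ℝ) + 1) ^ ((n : ℝ) / r - 1))) :
    ∃ m q : ℕ, q = 2 ^ m / (K + 1) ∧ 0 < q ∧ (((q : ℝ) + (K + 1)) / q) ^ n ≤ 11 / 10 ∧
      ∃ F : Finset (Fin n × Fin m), ∃ c : Fin n × Fin m → Bool,
        ((Fintype.card (Fin n × Fin m) : ℝ) - F.card) * Real.log 2 ≤ L1p L θ * ell A ∧
        Real.exp (-(2 * θ * ell A))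
          ≤ ((supp (pull q K m A) F c).card : ℝ) / 2 ^ F.card := by
  have ha : (0 : ℝ) < A.card := by exact_mod_cast Finset.card_pos.2 hA
  have hk : (0 : ℝ) < (K : ℝ) + 1 := by positivity
  have hnR : (0 : ℝ) < n := by exact_mod_cast hn
  set ℓ := ell A with hℓ
  have hlα : Real.log ((A.card : ℝ) / ((K : ℝ) + 1) ^ n) = -ℓ := by
    rw [Real.log_div ha.ne' (by positivity), Real.log_pow, hℓ]; unfold ell; ring
  have hlog2 : 0.69 < Real.log 2 := by have := Real.log_two_gt_d9; linarith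
  have hlog2' : Real.log 2 < 0.7 := by have := Real.log_two_lt_d9; linarith
  have hℓ2 : Real.log 2 ≤ ℓ := by
    have h1 := Real.log_le_log (by positivity) hα
    rw [hlα, Real.log_div (by norm_num) (by norm_num), Real.log_one] at h1
    linarith
  have hℓ0 : 0 < ℓ := by linarith
  set σ : ℝ := ((K : ℝ) + 1) * (edgeBoundary A).card / A.card with hσ
  have hσ0 : 0 ≤ σ := by positivity
  have hσr : ∀ r ∈ Finset.Icc 1 n, σ ≤ L * (r * Real.exp (ℓ / r)) := by
    intro r hr
    have hr0 : (0 : ℝ) < r := by exact_mod_cast (Finset.mem_Icc.1 hr).1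
    have h1 := hbd r hr
    rw [rterm ha hk hr0] at h1
    rw [hσ, div_le_iff₀ ha, hℓ]
    unfold ell
    calc ((K : ℝ) + 1) * (edgeBoundary A).card ≤ ((K : ℝ) + 1) * (L * (A.card / ((K : ℝ) + 1)
          * (r * Real.exp ((n * Real.log ((K : ℝ) + 1) - Real.log A.card) / r)))) := by gcongr
      _ = _ := by field_simp
  have hlog11 : Real.log (11 / 10) ≤ 1 / 10 := by
    have := Real.log_le_sub_one_of_pos (show (0:ℝ) < 11 / 10 by norm_num)
    linarith
  have hlog1011 : -(1 / 10) ≤ Real.log (10 / 11) := by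
    have : Real.log (10 / 11) = - Real.log (11 / 10) := by
      rw [← Real.log_inv]; norm_num
    rw [this]; linarith
  have hL20 : (1 : ℝ) ≤ 1 + 20 * L := by linarith
  have hLθ : 1 ≤ (1 + 20 * L) / θ := by
    rw [le_div_iff₀ hθ0]; linarith
  have hε0 : 0 < epsL ((1 + 20 * L) / θ) := epsL_pos hLθ
  have hpart1 : 0 ≤ 4 * (1 + 20 * L) / epsL ((1 + 20 * L) / θ) := by positivity
  have hlogL : 0 ≤ Real.log (2 + 6 * L / θ) := Real.log_nonneg (by
    have : 0 < 6 * L / θ := by positivity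
    linarith)
  by_cases hcase : ℓ ≤ n
  · -- first case
    obtain ⟨m, -, hq0, hκ⟩ := choose_m n K 0
    refine ⟨m, 2 ^ m / (K + 1), rfl, hq0, hκ, ?_⟩
    obtain ⟨hBne, hα1, hα2, -, hlow⟩ := blow_facts rfl hq0 hA hn hκ
    set B := pull (2 ^ m / (K + 1)) K m A with hB
    have hb : (0 : ℝ) < B.card := by exact_mod_cast Finset.card_pos.2 hBne
    set N := Fintype.card (Fin n × Fin m) with hN
    set ℓ' : ℝ := N * Real.log 2 - Real.log B.card with hℓ'
    have hlα' : Real.log ((B.card : ℝ) / 2 ^ N) = -ℓ' := by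
      rw [Real.log_div hb.ne' (by positivity), Real.log_pow, hℓ']; ring
    have hd1 : -ℓ' ≤ Real.log (11 / 10) + -ℓ := by
      rw [← hlα', ← hlα, ← Real.log_mul (by norm_num) (by positivity)]
      exact Real.log_le_log (by positivity) hα1
    have hd2 : Real.log (10 / 11) + -ℓ ≤ -ℓ' := by
      rw [← hlα', ← hlα, ← Real.log_mul (by norm_num) (by positivity)]
      exact Real.log_le_log (by positivity) hα2
    -- sigma
    set r := ⌈ℓ⌉₊ with hr
    have hr1 : 1 ≤ r := Nat.one_le_iff_ne_zero.2 (by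
      rw [hr]; exact (Nat.ceil_pos.2 hℓ0).ne')
    have hrn : r ≤ n := Nat.ceil_le.2 hcase
    have hrR : (0 : ℝ) < r := by exact_mod_cast hr1
    have hle : ℓ ≤ r := Nat.le_ceil ℓ
    have hlt : (r : ℝ) < ℓ + 1 := Nat.ceil_lt_add_one hℓ0.le
    have hσ1 := hσr r (Finset.mem_Icc.2 ⟨hr1, hrn⟩)
    have hexp : Real.exp (ℓ / r) ≤ 2.7183 := by
      have : ℓ / r ≤ 1 := (div_le_one hrR).2 hle
      refine (Real.exp_le_exp.2 this).trans ?_
      have := Real.exp_one_lt_d9; linarith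
    have hσ7 : σ ≤ 7 * L * ℓ := by
      calc σ ≤ L * (r * Real.exp (ℓ / r)) := hσ1
        _ ≤ L * ((ℓ + 1) * 2.7183) := by gcongr
        _ ≤ L * (7 * ℓ) := by
            apply mul_le_mul_of_nonneg_left _ hL.le
            linarith
        _ = 7 * L * ℓ := by ring
    have hℓ'pos : 0 < ℓ' := by linarith
    have hbdB : (bd B : ℝ) ≤ (1 + 20 * L) * B.card * (N * Real.log 2 - Real.log B.card) := by
      have h1 := hlow 0 (Nat.zero_le _)
      rw [low_zero] at h1
      have h2 : (bd B : ℝ) ≤ 22 / 10 / 2 ^ 0 * σ * B.card := h1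
      refine h2.trans ?_
      rw [← hℓ', pow_zero, div_one]
      have hℓℓ' : ℓ ≤ 1.17 * ℓ' := by linarith
      have hℓ'0 : 0 ≤ ℓ' := by linarith
      calc 22 / 10 * σ * (B.card : ℝ) ≤ 22 / 10 * (7 * L * ℓ) * B.card := by gcongr
        _ ≤ 22 / 10 * (7 * L * (1.17 * ℓ')) * B.card := by gcongr
        _ = 18.018 * (L * ℓ' * B.card) := by ring
        _ ≤ 20 * (L * ℓ' * B.card) := by
            apply mul_le_mul_of_nonneg_right _ (by positivity)
            norm_num
        _ ≤ (1 + 20 * L) * B.card * ℓ' := by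
            have : 0 ≤ (B.card : ℝ) * ℓ' := by positivity
            have e : (1 + 20 * L) * B.card * ℓ' = B.card * ℓ' + 20 * (L * ℓ' * B.card) := by ring
            rw [e]; linarith
    obtain ⟨F, c, h1, h2⟩ := exists_pow (L0 := 1 + 20 * L) (θ := θ) hL20 hθ0 hθ1 hBne
      hℓ'pos hbdB
    rw [← hℓ'] at h1 h2
    have hℓ'2 : ℓ' ≤ 2 * ℓ := by linarith
    refine ⟨F, c, ?_, le_trans (Real.exp_le_exp.2 ?_) h2⟩
    · have h3 : (N : ℝ) - F.card ≤ 4 * (1 + 20 * L) / epsL ((1 + 20 * L) / θ) * ℓ := by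
        calc (N : ℝ) - F.card ≤ 2 * (1 + 20 * L) / epsL ((1 + 20 * L) / θ) * ℓ' := h1
          _ ≤ 2 * (1 + 20 * L) / epsL ((1 + 20 * L) / θ) * (2 * ℓ) := by gcongr
          _ = _ := by ring
      have h4 : 0 ≤ (N : ℝ) - F.card := by
        have : (F.card : ℝ) ≤ N := by exact_mod_cast Finset.card_le_univ F
        linarith
      unfold L1p
      have h5 : 0 ≤ (1 + Real.log (2 + 6 * L / θ)) * ℓ := by positivity
      calc ((N : ℝ) - F.card) * Real.log 2 ≤ ((N : ℝ) - F.card) * 1 :=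
            mul_le_mul_of_nonneg_left (by linarith) h4
        _ ≤ 4 * (1 + 20 * L) / epsL ((1 + 20 * L) / θ) * ℓ := by rw [mul_one]; exact h3
        _ ≤ (4 * (1 + 20 * L) / epsL ((1 + 20 * L) / θ) + (1 + Real.log (2 + 6 * L / θ))) * ℓ := by
            rw [add_mul]; linarith
    · have : θ * ℓ' ≤ θ * (2 * ℓ) := by gcongr
      linarith
  · -- second case
    push Not at hcase
    set ρ : ℝ := ℓ / n with hρ
    have hρ1 : 1 < ρ := by rw [hρ, lt_div_iff₀ hnR]; linarith
    have hX1 : (1 : ℝ) ≤ 1 + 3 * L / θ * Real.exp ρ := by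
      have : 0 < 3 * L / θ * Real.exp ρ := by positivity
      linarith
    obtain ⟨h0, hh1, hh2⟩ := exists_nat_pow_near hX1 (by norm_num : (1:ℝ) < 2)
    set h := h0 + 1 with hh
    obtain ⟨m, hhm, hq0, hκ⟩ := choose_m n K h
    refine ⟨m, 2 ^ m / (K + 1), rfl, hq0, hκ, ?_⟩
    obtain ⟨hBne, hα1, hα2, -, hlow⟩ := blow_facts rfl hq0 hA hn hκ
    set B := pull (2 ^ m / (K + 1)) K m A with hB
    have hb : (0 : ℝ) < B.card := by exact_mod_cast Finset.card_pos.2 hBne
    set N := Fintype.card (Fin n × Fin m) with hN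
    set ℓ' : ℝ := N * Real.log 2 - Real.log B.card with hℓ'
    have hlα' : Real.log ((B.card : ℝ) / 2 ^ N) = -ℓ' := by
      rw [Real.log_div hb.ne' (by positivity), Real.log_pow, hℓ']; ring
    have hd1 : -ℓ' ≤ Real.log (11 / 10) + -ℓ := by
      rw [← hlα', ← hlα, ← Real.log_mul (by norm_num) (by positivity)]
      exact Real.log_le_log (by positivity) hα1
    have hd2 : Real.log (10 / 11) + -ℓ ≤ -ℓ' := by
      rw [← hlα', ← hlα, ← Real.log_mul (by norm_num) (by positivity)]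
      exact Real.log_le_log (by positivity) hα2
    have hℓ'2 : ℓ' ≤ 2 * ℓ := by linarith
    have hσn := hσr n (Finset.mem_Icc.2 ⟨hn, le_rfl⟩)
    rw [← hρ] at hσn
    have h2h : (0 : ℝ) < 2 ^ h := by positivity
    have hBexp : (B.card : ℝ) / 2 ^ N = Real.exp (-ℓ') := by
      rw [← hlα', Real.exp_log (by positivity)]
    have hexist : ∃ c : Fin n × Fin m → Bool,
        Real.exp (-(θ * ℓ')) ≤ ((supp B (low n m h) c).card : ℝ) / 2 ^ (low n m h).card := by
      by_contra hc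
      push Not at hc
      have h1 := low_bound hBne (low n m h) (θ := Real.exp ((1 - θ) * ℓ')) (Real.exp_pos _)
        (fun c => by
          rw [← hN, hBexp, ← Real.exp_add]
          have e : (1 - θ) * ℓ' + -ℓ' = -(θ * ℓ') := by ring
          rw [e]
          exact (hc c).le)
      rw [← hN, ← hℓ', le_div_iff₀ hb, Real.log_exp] at h1
      have h2 := hlow h hhm
      have h3 : 22 / 10 / 2 ^ h * σ ≤ 22 / 30 * θ * n := by
        have h4 : 3 * L / θ * Real.exp ρ ≤ 2 ^ h := by linarith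
        have h5 : σ ≤ n * (2 ^ h * θ / 3) := by
          calc σ ≤ L * (n * Real.exp ρ) := hσn
            _ = n * (3 * L / θ * Real.exp ρ * θ / 3) := by field_simp
            _ ≤ n * (2 ^ h * θ / 3) := by gcongr
        calc 22 / 10 / 2 ^ h * σ ≤ 22 / 10 / 2 ^ h * (n * (2 ^ h * θ / 3)) := by gcongr
          _ = 22 / 30 * θ * n := by field_simp; norm_num
      have h6 : (ℓ' - (1 - θ) * ℓ') * B.card ≤ 22 / 30 * θ * n * B.card :=
        h1.trans (h2.trans (by gcongr))
      have h7 : ℓ' - (1 - θ) * ℓ' ≤ 22 / 30 * θ * n := le_of_mul_le_mul_right h6 hb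
      have h8 : θ * ℓ' ≤ θ * (22 / 30 * n) := by linarith
      have h9 : ℓ' ≤ 22 / 30 * n := le_of_mul_le_mul_left h8 hθ0
      have hn1 : (1 : ℝ) ≤ n := by exact_mod_cast hn
      linarith
    obtain ⟨c, hc⟩ := hexist
    refine ⟨low n m h, c, ?_, le_trans (Real.exp_le_exp.2 ?_) hc⟩
    · have hcodim : (N : ℝ) - (low n m h).card = n * h := by
        rw [card_low n m h hhm, hN, Fintype.card_prod, Fintype.card_fin, Fintype.card_fin]
        rw [Nat.cast_mul, Nat.cast_mul, Nat.cast_sub hhm]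
        ring
      rw [hcodim]
      have h8 : (h : ℝ) * Real.log 2 ≤ Real.log (2 + 6 * L / θ) + ρ := by
        have hpos : (0:ℝ) < 2 + 6 * L / θ := by positivity
        rw [← Real.log_pow, ← Real.log_exp ρ, ← Real.log_mul hpos.ne' (Real.exp_pos _).ne']
        apply Real.log_le_log h2h
        have h9 : (2:ℝ) ^ h = 2 * 2 ^ h0 := by rw [hh, pow_succ]; ring
        rw [h9]
        have h10 : 1 ≤ Real.exp ρ := Real.one_le_exp (by linarith)
        have e : (2 + 6 * L / θ) * Real.exp ρ = 2 * Real.exp ρ + 2 * (3 * L / θ * Real.exp ρ) := by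
          ring
        rw [e]
        linarith
      have h11 : (n : ℝ) * h * Real.log 2 ≤ n * Real.log (2 + 6 * L / θ) + ℓ := by
        calc (n : ℝ) * h * Real.log 2 = n * (h * Real.log 2) := by ring
          _ ≤ n * (Real.log (2 + 6 * L / θ) + ρ) := by gcongr
          _ = n * Real.log (2 + 6 * L / θ) + ℓ := by rw [hρ]; field_simp
      have h12 : (n : ℝ) * Real.log (2 + 6 * L / θ) ≤ ℓ * Real.log (2 + 6 * L / θ) := by gcongr
      unfold L1p
      have h13 : 0 ≤ 4 * (1 + 20 * L) / epsL ((1 + 20 * L) / θ) * ℓ := by positivity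
      rw [add_mul, add_mul]
      linarith
    · have : θ * ℓ' ≤ θ * (2 * ℓ) := by gcongr
      linarith

theorem conv_pow {K : ℕ} (hn : 0 < n) {A : Finset (Fin n → Fin (K + 1))} (hA : A.Nonempty)
    (hα : (A.card : ℝ) / ((K : ℝ) + 1) ^ n ≤ 1 / 2) {L1 γ P : ℝ} (hγ : 0 < γ) (hP0 : 0 < P)
    (hP : 2 * (1 / 2 : ℝ) ^ P ≤ 1 - (1 / 2 : ℝ) ^ γ) {q : ℕ}
    (hq : q = 2 ^ m / (K + 1)) (hq0 : 0 < q)
    (hκ : (((q : ℝ) + (K + 1)) / q) ^ n ≤ 11 / 10)
    {F : Finset (Fin n × Fin m)} {c : Fin n × Fin m → Bool}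
    (h1 : ((Fintype.card (Fin n × Fin m) : ℝ) - F.card) * Real.log 2 ≤ L1 * ell A)
    (h2 : Real.exp (-(γ * ell A))
          ≤ ((supp (pull q K m A) F c).card : ℝ) / 2 ^ F.card) :
    ∃ S : Fin n → Finset (Fin (K + 1)),
      ((A.card : ℝ) / ((K : ℝ) + 1) ^ n) ^ (L1 + γ + P)
        ≤ ((Fintype.piFinset S).card : ℝ) / ((K : ℝ) + 1) ^ n ∧
      ((A.card : ℝ) / ((K : ℝ) + 1) ^ n) ^ (2 * γ)
        ≤ ((A ∩ Fintype.piFinset S).card : ℝ) / ((Fintype.piFinset S).card : ℝ) := by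
  obtain ⟨hBne, -, hα2, hT, -⟩ := blow_facts hq hq0 hA hn hκ
  have ha : (0 : ℝ) < A.card := by exact_mod_cast Finset.card_pos.2 hA
  have hk : (0 : ℝ) < (K : ℝ) + 1 := by positivity
  by_contra hc
  push Not at hc
  set α : ℝ := (A.card : ℝ) / ((K : ℝ) + 1) ^ n with hαdef
  have hα0 : 0 < α := by positivity
  have hlα : Real.log α = - ell A := by
    rw [hαdef, Real.log_div ha.ne' (by positivity), Real.log_pow]; unfold ell; ring
  set N := Fintype.card (Fin n × Fin m) with hN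
  set β : ℝ := α ^ (L1 + γ + P) with hβ
  have hβ0 : 0 < β := Real.rpow_pos_of_pos hα0 _
  set D : ℝ := α ^ (2 * γ) with hD
  have hD0 : 0 < D := Real.rpow_pos_of_pos hα0 _
  have hkn : (0 : ℝ) < ((K : ℝ) + 1) ^ n := by positivity
  have hpt : ∀ t : Fin n → Fin (q + (K + 1)),
      ((A ∩ Fintype.piFinset (lev q K F c (q + (K + 1)) t)).card : ℝ)
        ≤ D
          * ((Finset.univ ∩ Fintype.piFinset (lev q K F c (q + (K + 1)) t)).card : ℝ)
          + β * ((K : ℝ) + 1) ^ n := by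
    intro t
    set C := Fintype.piFinset (lev q K F c (q + (K + 1)) t) with hC
    rw [Finset.univ_inter]
    by_cases hm : β ≤ (C.card : ℝ) / ((K : ℝ) + 1) ^ n
    · have h3 := hc _ hm
      have hCpos : (0 : ℝ) < C.card := by
        have : 0 < (C.card : ℝ) / ((K : ℝ) + 1) ^ n := lt_of_lt_of_le hβ0 hm
        rcases Nat.eq_zero_or_pos C.card with h0 | h0
        · rw [h0] at this; simp at this
        · exact_mod_cast h0
      rw [← hC, div_lt_iff₀ hCpos] at h3
      have : 0 ≤ β * ((K : ℝ) + 1) ^ n := by positivity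
      linarith
    · push Not at hm
      rw [div_lt_iff₀ hkn] at hm
      have h4 : ((A ∩ C).card : ℝ) ≤ C.card := by
        exact_mod_cast Finset.card_le_card Finset.inter_subset_right
      have : 0 ≤ D * (C.card : ℝ) := by positivity
      linarith
  have hsum := Finset.sum_le_sum (fun t (_ : t ∈ (Finset.univ : Finset (Fin n → Fin (q + (K + 1)))))
    => hpt t)
  rw [Finset.sum_add_distrib, ← Finset.mul_sum, Finset.sum_const, Finset.card_univ,
    Fintype.card_fun, Fintype.card_fin, Fintype.card_fin] at hsum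
  have e1 : (∑ t : Fin n → Fin (q + (K + 1)),
      ((A ∩ Fintype.piFinset (lev q K F c (q + (K + 1)) t)).card : ℝ))
      = ((supp (pull q K m A) F c).card : ℝ) := by
    rw [card_supp_pull, layer_cake hq hq0]; push_cast; rfl
  have e2 : (∑ t : Fin n → Fin (q + (K + 1)),
      ((Finset.univ ∩ Fintype.piFinset (lev q K F c (q + (K + 1)) t)).card : ℝ))
      = 2 ^ F.card := by
    have h3 := card_free F c q K
    rw [layer_cake hq hq0] at h3
    have h4 : ((2 ^ F.card : ℕ) : ℝ) = ((∑ t : Fin n → Fin (q + (K + 1)),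
      (Finset.univ ∩ Fintype.piFinset (lev q K F c (q + (K + 1)) t)).card : ℕ) : ℝ) := by
      rw [h3]
    push_cast at h4
    exact h4.symm
  rw [e1, e2, nsmul_eq_mul] at hsum
  push_cast at hsum
  have h2F : (0 : ℝ) < 2 ^ F.card := by positivity
  have hNF : (2 : ℝ) ^ N ≤ 2 ^ F.card * Real.exp (L1 * ell A) := by
    have hF : F.card ≤ N := Finset.card_le_univ F
    have h5 : (2 : ℝ) ^ N = 2 ^ F.card * 2 ^ (N - F.card) := by
      rw [← pow_add]; congr 1; omega
    rw [h5]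
    apply mul_le_mul_of_nonneg_left _ h2F.le
    have h6 : (2 : ℝ) ^ (N - F.card) = Real.exp ((N - F.card : ℕ) * Real.log 2) := by
      rw [Real.exp_nat_mul, Real.exp_log (by norm_num)]
    rw [h6]
    apply Real.exp_le_exp.2
    rw [Nat.cast_sub hF]
    exact h1
  have hβe : β * Real.exp (L1 * ell A) = α ^ γ * α ^ P := by
    rw [hβ, Real.rpow_def_of_pos hα0, Real.rpow_def_of_pos hα0, Real.rpow_def_of_pos hα0,
      ← Real.exp_add, ← Real.exp_add, hlα]
    congr 1
    ring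
  have hDe : D = α ^ γ * α ^ γ := by
    rw [hD, ← Real.rpow_add hα0]; congr 1; ring
  have hγe : Real.exp (-(γ * ell A)) = α ^ γ := by
    rw [Real.rpow_def_of_pos hα0, hlα]; congr 1; ring
  have hαγ0 : 0 < α ^ γ := Real.rpow_pos_of_pos hα0 _
  have hαγ : α ^ γ ≤ (1 / 2) ^ γ := Real.rpow_le_rpow hα0.le hα hγ.le
  have hαP : α ^ P ≤ (1 / 2) ^ P := Real.rpow_le_rpow hα0.le hα hP0.le
  have hαP0 : 0 < α ^ P := Real.rpow_pos_of_pos hα0 _
  have hfin : ((q : ℝ) + ((K : ℝ) + 1)) ^ n * (β * ((K : ℝ) + 1) ^ n)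
      ≤ 11 / 10 * (2 ^ F.card * (α ^ γ * α ^ P)) := by
    calc ((q : ℝ) + ((K : ℝ) + 1)) ^ n * (β * ((K : ℝ) + 1) ^ n)
        = β * (((q : ℝ) + ((K : ℝ) + 1)) ^ n * ((K : ℝ) + 1) ^ n) := by ring
      _ ≤ β * (11 / 10 * 2 ^ N) := by gcongr
      _ ≤ β * (11 / 10 * (2 ^ F.card * Real.exp (L1 * ell A))) := by gcongr
      _ = 11 / 10 * (2 ^ F.card * (β * Real.exp (L1 * ell A))) := by ring
      _ = _ := by rw [hβe]
  rw [le_div_iff₀ h2F, hγe] at h2
  rw [hDe] at hsum
  -- divide by `2 ^ F.card * α ^ γ`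
  have h5 : α ^ γ * 2 ^ F.card ≤ α ^ γ * α ^ γ * 2 ^ F.card
      + 11 / 10 * (2 ^ F.card * (α ^ γ * α ^ P)) := by linarith
  have h6 : (α ^ γ * 2 ^ F.card) * 1 ≤ (α ^ γ * 2 ^ F.card) * (α ^ γ + 11 / 10 * α ^ P) := by
    linarith
  have h7 : 1 ≤ α ^ γ + 11 / 10 * α ^ P := le_of_mul_le_mul_left h6 (by positivity)
  linarith

/-! ### The size of the exponent -/

lemma inv_epsL_le {x : ℝ} (hx : 1 ≤ x) : 1 / epsL x ≤ Real.exp (51000 * x ^ 3) := by
  have hx0 : 0 < x := by linarith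
  have h1 : 1 / epsL x = (16 * x) ^ 2
      * Real.exp (8 * x + 3072 * (16 * x + 1 / 2) * x ^ 2 + 1) := by
    unfold epsL
    rw [Real.exp_neg]
    have : Real.exp (8 * x + 3072 * (16 * x + 1 / 2) * x ^ 2 + 1) ≠ 0 := (Real.exp_pos _).ne'
    field_simp
  rw [h1]
  have h2 : (16 * x) ^ 2 ≤ Real.exp ((16 * x) ^ 2) := by
    have := Real.add_one_le_exp ((16 * x) ^ 2)
    linarith
  calc (16 * x) ^ 2 * Real.exp (8 * x + 3072 * (16 * x + 1 / 2) * x ^ 2 + 1)
      ≤ Real.exp ((16 * x) ^ 2) * Real.exp (8 * x + 3072 * (16 * x + 1 / 2) * x ^ 2 + 1) := by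
        gcongr
    _ = Real.exp ((16 * x) ^ 2 + (8 * x + 3072 * (16 * x + 1 / 2) * x ^ 2 + 1)) := by
        rw [← Real.exp_add]
    _ ≤ Real.exp (51000 * x ^ 3) := by
        apply Real.exp_le_exp.2
        have h3 : x ^ 2 ≤ x ^ 3 := pow_le_pow_right₀ hx (by norm_num)
        have h4 : x ≤ x ^ 3 := by
          calc x = x ^ 1 := (pow_one x).symm
            _ ≤ x ^ 3 := pow_le_pow_right₀ hx (by norm_num)
        have h5 : 1 ≤ x ^ 3 := one_le_pow₀ hx
        nlinarith

/-- The total exponent for the parameter `θ`. -/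
def Ltot (L θ : ℝ) : ℝ := L1p L (θ / 4) + θ / 2 + 12 / θ

lemma Ltot_le {L θ : ℝ} (hL : 0 < L) (hθ0 : 0 < θ) (hθ1 : θ ≤ 1) :
    Ltot L θ ≤ Real.exp (4000000 * ((1 + 20 * L) / θ) ^ 3) := by
  set y : ℝ := (1 + 20 * L) / θ with hy
  have hy1 : 1 ≤ y := by
    rw [hy, le_div_iff₀ hθ0]; linarith
  have hx : (1 + 20 * L) / (θ / 4) = 4 * y := by rw [hy]; field_simp
  have h4y : 1 ≤ 4 * y := by linarith
  have h1 : 1 / epsL (4 * y) ≤ Real.exp (51000 * (4 * y) ^ 3) := inv_epsL_le h4y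
  have hLy : 1 + 20 * L ≤ y := by
    rw [hy, le_div_iff₀ hθ0]; nlinarith
  have hinv : 1 / θ ≤ y := by
    rw [hy]; apply div_le_div_of_nonneg_right _ hθ0.le; linarith
  have h12 : 12 / θ ≤ 12 * y := by
    have : 12 / θ = 12 * (1 / θ) := by ring
    rw [this]; linarith
  have hLθ : 6 * L / (θ / 4) ≤ 2 * y := by
    have e : 6 * L / (θ / 4) = 24 * L / θ := by field_simp; norm_num
    have e2 : 2 * y = (2 + 40 * L) / θ := by rw [hy]; field_simp; ring
    rw [e, e2]
    apply div_le_div_of_nonneg_right _ hθ0.le; linarith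
  have hlog : Real.log (2 + 6 * L / (θ / 4)) ≤ 1 + 2 * y := by
    have h0 : (0:ℝ) < 2 + 6 * L / (θ / 4) := by positivity
    have := Real.log_le_sub_one_of_pos h0
    linarith
  have hy3 : y ≤ y ^ 3 := by
    calc y = y ^ 1 := (pow_one y).symm
      _ ≤ y ^ 3 := pow_le_pow_right₀ hy1 (by norm_num)
  have hy31 : 1 ≤ y ^ 3 := one_le_pow₀ hy1
  have hmain : 4 * (1 + 20 * L) / epsL (4 * y) ≤ 4 * y * Real.exp (51000 * (4 * y) ^ 3) := by
    have e : 4 * (1 + 20 * L) / epsL (4 * y) = 4 * (1 + 20 * L) * (1 / epsL (4 * y)) := by ring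
    rw [e]
    have : 0 ≤ 1 / epsL (4 * y) := by
      have := epsL_pos h4y
      positivity
    gcongr
  have hE1 : 1 ≤ Real.exp (51000 * (4 * y) ^ 3) := Real.one_le_exp (by positivity)
  unfold Ltot L1p
  rw [hx]
  have htot : 4 * (1 + 20 * L) / epsL (4 * y) + (1 + Real.log (2 + 6 * L / (θ / 4)))
      + θ / 2 + 12 / θ ≤ 22 * y * Real.exp (51000 * (4 * y) ^ 3) := by
    have h5 : (18 * y) * 1 ≤ (18 * y) * Real.exp (51000 * (4 * y) ^ 3) := by gcongr
    linarith
  refine htot.trans ?_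
  have h6 : 22 * y ≤ Real.exp (22 * y) := by
    have := Real.add_one_le_exp (22 * y)
    linarith
  calc 22 * y * Real.exp (51000 * (4 * y) ^ 3)
      ≤ Real.exp (22 * y) * Real.exp (51000 * (4 * y) ^ 3) := by gcongr
    _ = Real.exp (22 * y + 51000 * (4 * y) ^ 3) := by rw [Real.exp_add]
    _ ≤ _ := by
        apply Real.exp_le_exp.2
        have : (4 * y) ^ 3 = 64 * y ^ 3 := by ring
        rw [this]
        linarith

lemma P_ok {θ : ℝ} (hθ0 : 0 < θ) (hθ1 : θ ≤ 1) :
    2 * (1 / 2 : ℝ) ^ (12 / θ) ≤ 1 - (1 / 2 : ℝ) ^ (θ / 2) := by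
  have hlog2 : 0.69 < Real.log 2 := by have := Real.log_two_gt_d9; linarith
  have hlog2' : Real.log 2 < 0.7 := by have := Real.log_two_lt_d9; linarith
  have hhalf : Real.log (1 / 2) = -Real.log 2 := by
    rw [Real.log_div (by norm_num) (by norm_num), Real.log_one]; ring
  rw [Real.rpow_def_of_pos (by norm_num), Real.rpow_def_of_pos (by norm_num), hhalf]
  have h1 : Real.exp (-Real.log 2 * (θ / 2)) ≤ 1 - θ / 4 := by
    set x : ℝ := Real.log 2 * (θ / 2) with hx
    have hx0 : 0.345 * θ ≤ x := by rw [hx]; nlinarith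
    have hx1 : x ≤ 0.35 * θ := by rw [hx]; nlinarith
    have e : -Real.log 2 * (θ / 2) = -x := by rw [hx]; ring
    rw [e, Real.exp_neg]
    have h2 := Real.add_one_le_exp x
    have h3 : 0 < 1 - θ / 4 := by linarith
    have hx00 : 0 < x := by nlinarith
    rw [inv_le_comm₀ (Real.exp_pos _) h3]
    refine le_trans ?_ h2
    rw [inv_le_iff_one_le_mul₀ h3]
    nlinarith
  have h2 : Real.exp (-Real.log 2 * (12 / θ)) ≤ θ / 8 := by
    have e : -Real.log 2 * (12 / θ) = -(Real.log 2 * (12 / θ)) := by ring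
    rw [e, Real.exp_neg]
    have h3 := Real.add_one_le_exp (Real.log 2 * (12 / θ))
    have h4 : 8 / θ ≤ Real.log 2 * (12 / θ) := by
      have : Real.log 2 * (12 / θ) = (12 * Real.log 2) / θ := by ring
      rw [this]
      apply div_le_div_of_nonneg_right _ hθ0.le
      linarith
    rw [inv_le_comm₀ (Real.exp_pos _) (by positivity)]
    have : (θ / 8)⁻¹ = 8 / θ := by rw [inv_div]
    rw [this]
    linarith
  linarith

end Pool.Agent.Y873.GP
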